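import Mathlib

/-!
# The presentations with a binary icosahedral tail are `Q**`-equivalent

We formalise finite presentations, the elementary moves of a `Q**`-transformation
(`Q`-moves, Nielsen moves, prolongation and its reverse), and prove that for every finite
presentation `⟨a_1,…,a_g ∣ R_1,…,R_h⟩` of a group `G` and every word `S` whose image in `G` has
finite order coprime to `6`, the presentations

* `𝒫 = ⟨a_1,…,a_g,b_1,b_2 ∣ R_1,…,R_h, S b_1⁻¹, b_1³ b_2⁻⁵, b_1³ (b_1 b_2)⁻²⟩` and
* `𝒬 = ⟨a_1,…,a_g ∣ R_1,…,R_h, S⟩`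

are `Q**`-equivalent.
-/

set_option autoImplicit false

namespace Pool.Agent.Results.MP_7840f5_gt.QStarStar

/-- A finite presentation `⟨a_1,…,a_gens ∣ rel 1,…,rel rels⟩`; each relator is an element of the
free group on the generators. -/
structure Pres where
  /-- the number of generators -/
  gens : ℕ
  /-- the number of relators -/
  rels : ℕ
  /-- the relators -/
  rel : Fin rels → FreeGroup (Fin gens)

/-- The endomorphism of the free group `F(a_1,…,a_g)` that sends the generator `a_i` to the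
element `x` and fixes all the other generators. -/
def substGen {g : ℕ} (i : Fin g) (x : FreeGroup (Fin g)) :
    FreeGroup (Fin g) →* FreeGroup (Fin g) :=
  FreeGroup.lift (Function.update FreeGroup.of i x)

/-- The presentation obtained by adjoining a new last generator `a` and the new last
relator `a`. -/
def prolong (P : Pres) : Pres where
  gens := P.gens + 1
  rels := P.rels + 1
  rel := Fin.snoc (α := fun _ => FreeGroup (Fin (P.gens + 1)))
    (fun j => FreeGroup.map Fin.castSucc (P.rel j)) (FreeGroup.of (Fin.last P.gens))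

/-- One elementary move of a `Q**`-transformation. -/
inductive Move : Pres → Pres → Prop
  /-- `Q`-move: replace the relator `R_j` by `w R_j w⁻¹` -/
  | conj (g h : ℕ) (R : Fin h → FreeGroup (Fin g)) (j : Fin h) (w : FreeGroup (Fin g)) :
      Move ⟨g, h, R⟩ ⟨g, h, Function.update R j (w * R j * w⁻¹)⟩
  /-- `Q`-move: replace the relator `R_j` by `R_j⁻¹` -/
  | inv (g h : ℕ) (R : Fin h → FreeGroup (Fin g)) (j : Fin h) :
      Move ⟨g, h, R⟩ ⟨g, h, Function.update R j (R j)⁻¹⟩
  /-- `Q`-move: replace the relator `R_j` by `R_j R_k`, `k ≠ j` -/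
  | mulRight (g h : ℕ) (R : Fin h → FreeGroup (Fin g)) (j k : Fin h) (hkj : k ≠ j) :
      Move ⟨g, h, R⟩ ⟨g, h, Function.update R j (R j * R k)⟩
  /-- `Q`-move: replace the relator `R_j` by `R_k R_j`, `k ≠ j` -/
  | mulLeft (g h : ℕ) (R : Fin h → FreeGroup (Fin g)) (j k : Fin h) (hkj : k ≠ j) :
      Move ⟨g, h, R⟩ ⟨g, h, Function.update R j (R k * R j)⟩
  /-- Nielsen move: substitute `a_i⁻¹` for `a_i` in every relator -/
  | nielsenInv (g h : ℕ) (R : Fin h → FreeGroup (Fin g)) (i : Fin g) :
      Move ⟨g, h, R⟩ ⟨g, h, fun j => substGen i (FreeGroup.of i)⁻¹ (R j)⟩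
  /-- Nielsen move: substitute `a_i a_k` for `a_i` in every relator, `k ≠ i` -/
  | nielsenRight (g h : ℕ) (R : Fin h → FreeGroup (Fin g)) (i k : Fin g) (hki : k ≠ i) :
      Move ⟨g, h, R⟩ ⟨g, h, fun j => substGen i (FreeGroup.of i * FreeGroup.of k) (R j)⟩
  /-- Nielsen move: substitute `a_k a_i` for `a_i` in every relator, `k ≠ i` -/
  | nielsenLeft (g h : ℕ) (R : Fin h → FreeGroup (Fin g)) (i k : Fin g) (hki : k ≠ i) :
      Move ⟨g, h, R⟩ ⟨g, h, fun j => substGen i (FreeGroup.of k * FreeGroup.of i) (R j)⟩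
  /-- prolongation: adjoin a new generator `a` together with the new relator `a` -/
  | prolongation (P : Pres) : Move P (prolong P)
  /-- the reverse of a prolongation: delete a generator `a` and the relator `a`, where `a` occurs
  in no other relator -/
  | reduction (P : Pres) : Move (prolong P) P

/-- A `Q**`-transformation carries `P` to `P'`: a finite sequence of elementary moves leads from
`P` to `P'`. -/
def QStarStarEquiv (P P' : Pres) : Prop := Relation.ReflTransGen Move P P'

/-- The group `G` presented by `⟨a_1,…,a_g ∣ R_1,…,R_h⟩`. -/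
abbrev presGroup {g h : ℕ} (R : Fin h → FreeGroup (Fin g)) : Type :=
  PresentedGroup (Set.range R)

/-- A word in the old generators `a_1,…,a_g`, regarded as a word in the generators
`a_1,…,a_g,b_1,b_2`. -/
def emb {g : ℕ} : FreeGroup (Fin g) →* FreeGroup (Fin (g + 2)) := FreeGroup.map (Fin.castAdd 2)

/-- The new generator `b_1`. -/
def b₁ (g : ℕ) : FreeGroup (Fin (g + 2)) := FreeGroup.of (Fin.natAdd g 0)

/-- The new generator `b_2`. -/
def b₂ (g : ℕ) : FreeGroup (Fin (g + 2)) := FreeGroup.of (Fin.natAdd g 1)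

/-- The presentation
`𝒫 = ⟨a_1,…,a_g,b_1,b_2 ∣ R_1,…,R_h, S b_1⁻¹, b_1³ b_2⁻⁵, b_1³ (b_1 b_2)⁻²⟩`. -/
def presP {g h : ℕ} (R : Fin h → FreeGroup (Fin g)) (S : FreeGroup (Fin g)) : Pres where
  gens := g + 2
  rels := h + 3
  rel := Fin.append (fun j => emb (R j))
    ![emb S * (b₁ g)⁻¹, b₁ g ^ 3 * b₂ g ^ (-5 : ℤ), b₁ g ^ 3 * (b₁ g * b₂ g) ^ (-2 : ℤ)]

/-- The presentation `𝒬 = ⟨a_1,…,a_g ∣ R_1,…,R_h, S⟩`. -/
def presQ {g h : ℕ} (R : Fin h → FreeGroup (Fin g)) (S : FreeGroup (Fin g)) : Pres where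
  gens := g
  rels := h + 1
  rel := Fin.append R ![S]

/-! ### Replacing a relator modulo the others -/

/-- The normal closure of all the relators except the `j`-th one. -/
def others {g h : ℕ} (R : Fin h → FreeGroup (Fin g)) (j : Fin h) : Subgroup (FreeGroup (Fin g)) :=
  Subgroup.normalClosure {x | ∃ k, k ≠ j ∧ R k = x}

instance {g h : ℕ} (R : Fin h → FreeGroup (Fin g)) (j : Fin h) : (others R j).Normal := by
  unfold others; infer_instance

theorem rel_mem_others {g h : ℕ} (R : Fin h → FreeGroup (Fin g)) (j k : Fin h) (hk : k ≠ j) :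
    R k ∈ others R j :=
  Subgroup.subset_normalClosure ⟨k, hk, rfl⟩

theorem step_conj {g h : ℕ} (R : Fin h → FreeGroup (Fin g)) (j : Fin h)
    (x w : FreeGroup (Fin g)) :
    QStarStarEquiv ⟨g, h, Function.update R j x⟩ ⟨g, h, Function.update R j (w * x * w⁻¹)⟩ := by
  have := Move.conj g h (Function.update R j x) j w
  simp only [Function.update_self, Function.update_idem] at this
  exact Relation.ReflTransGen.single this

theorem step_inv {g h : ℕ} (R : Fin h → FreeGroup (Fin g)) (j : Fin h)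
    (x : FreeGroup (Fin g)) :
    QStarStarEquiv ⟨g, h, Function.update R j x⟩ ⟨g, h, Function.update R j x⁻¹⟩ := by
  have := Move.inv g h (Function.update R j x) j
  simp only [Function.update_self, Function.update_idem] at this
  exact Relation.ReflTransGen.single this

theorem step_mulRight {g h : ℕ} (R : Fin h → FreeGroup (Fin g)) (j k : Fin h) (hk : k ≠ j)
    (x : FreeGroup (Fin g)) :
    QStarStarEquiv ⟨g, h, Function.update R j x⟩ ⟨g, h, Function.update R j (x * R k)⟩ := by
  have := Move.mulRight g h (Function.update R j x) j k hk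
  simp only [Function.update_self, Function.update_idem, Function.update_of_ne hk] at this
  exact Relation.ReflTransGen.single this

/-- `x ↦ x * (w R_k w⁻¹)` is a composition of `Q`-moves. -/
theorem step_mul_conj {g h : ℕ} (R : Fin h → FreeGroup (Fin g)) (j k : Fin h) (hk : k ≠ j)
    (x w : FreeGroup (Fin g)) :
    QStarStarEquiv ⟨g, h, Function.update R j x⟩
      ⟨g, h, Function.update R j (x * (w * R k * w⁻¹))⟩ := by
  have h1 := step_conj R j x w⁻¹
  have h2 := step_mulRight R j k hk (w⁻¹ * x * w⁻¹⁻¹)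
  have h3 := step_conj R j (w⁻¹ * x * w⁻¹⁻¹ * R k) w
  have e : w * (w⁻¹ * x * w⁻¹⁻¹ * R k) * w⁻¹ = x * (w * R k * w⁻¹) := by group
  rw [e] at h3
  exact (h1.trans h2).trans h3

/-- `x ↦ x * (w R_k w⁻¹)⁻¹` is a composition of `Q`-moves. -/
theorem step_mul_conj_inv {g h : ℕ} (R : Fin h → FreeGroup (Fin g)) (j k : Fin h) (hk : k ≠ j)
    (x w : FreeGroup (Fin g)) :
    QStarStarEquiv ⟨g, h, Function.update R j x⟩
      ⟨g, h, Function.update R j (x * (w * R k * w⁻¹)⁻¹)⟩ := by
  -- with `c = w R_k w⁻¹`: go from `x` to `x⁻¹`, then to `x⁻¹ (x c x⁻¹) = c x⁻¹`, then to `x c⁻¹`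
  have h1 := step_inv R j x
  have h2 := step_mul_conj R j k hk x⁻¹ (x * w)
  have h3 := step_inv R j (x⁻¹ * ((x * w) * R k * (x * w)⁻¹))
  have e : (x⁻¹ * ((x * w) * R k * (x * w)⁻¹))⁻¹ = x * (w * R k * w⁻¹)⁻¹ := by group
  rw [e] at h3
  exact (h1.trans h2).trans h3

/-- A relator may be multiplied on the right by any consequence of the other relators. -/
theorem step_mul_mem {g h : ℕ} (R : Fin h → FreeGroup (Fin g)) (j : Fin h)
    (r : FreeGroup (Fin g)) (hr : r ∈ others R j) :
    ∀ x, QStarStarEquiv ⟨g, h, Function.update R j x⟩ ⟨g, h, Function.update R j (x * r)⟩ := by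
  unfold others Subgroup.normalClosure at hr
  induction hr using Subgroup.closure_induction'' with
  | mem r hr =>
    intro x
    obtain ⟨a, ⟨k, hk, rfl⟩, hc⟩ := Group.mem_conjugatesOfSet_iff.1 hr
    obtain ⟨w, rfl⟩ := isConj_iff.1 hc
    exact step_mul_conj R j k hk x w
  | inv_mem r hr =>
    intro x
    obtain ⟨a, ⟨k, hk, rfl⟩, hc⟩ := Group.mem_conjugatesOfSet_iff.1 hr
    obtain ⟨w, rfl⟩ := isConj_iff.1 hc
    exact step_mul_conj_inv R j k hk x w
  | one =>
    intro x
    rw [mul_one]
    exact Relation.ReflTransGen.refl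
  | mul r s _ _ ihr ihs =>
    intro x
    have h1 := ihr x
    have h2 := ihs (x * r)
    rw [mul_assoc] at h2
    exact h1.trans h2

/-- A relator may be replaced by any word equal to it modulo the other relators. -/
theorem step_replace {g h : ℕ} (R : Fin h → FreeGroup (Fin g)) (j : Fin h)
    (x : FreeGroup (Fin g))
    (hx : (QuotientGroup.mk (R j) : FreeGroup (Fin g) ⧸ others R j) = QuotientGroup.mk x) :
    QStarStarEquiv ⟨g, h, R⟩ ⟨g, h, Function.update R j x⟩ := by
  have hmem : (R j)⁻¹ * x ∈ others R j := QuotientGroup.eq.1 hx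
  have := step_mul_mem R j _ hmem (R j)
  rwa [Function.update_eq_self, mul_inv_cancel_left] at this

/-! ### The group theory behind the moves -/

/-- If `x ^ (6k+1) = 1` and `x ^ 3 = y ^ 5` then `x` is a power of `y`. -/
theorem eq_zpow_of {G : Type*} [Group G] (x y : G) (k : ℤ) (hx : x ^ (6 * k + 1) = 1)
    (hxy : x ^ 3 * y ^ (-5 : ℤ) = 1) : x = y ^ (-(10 * k)) := by
  have h3 : x ^ (3 : ℤ) = y ^ (5 : ℤ) := by
    have : x ^ 3 = (y ^ (-5 : ℤ))⁻¹ := eq_inv_of_mul_eq_one_left hxy
    rw [← zpow_neg] at this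
    norm_num at this
    exact_mod_cast this
  have h1 : x = x ^ (-(6 * k)) := by
    have : x ^ (6 * k + 1) * x ^ (-(6 * k)) = x := by
      rw [← zpow_add]
      have : 6 * k + 1 + -(6 * k) = 1 := by ring
      rw [this, zpow_one]
    rw [hx, one_mul] at this
    exact this.symm
  calc x = x ^ (-(6 * k)) := h1
    _ = (x ^ (3 : ℤ)) ^ (-(2 * k)) := by rw [← zpow_mul]; congr 1; ring
    _ = (y ^ (5 : ℤ)) ^ (-(2 * k)) := by rw [h3]
    _ = y ^ (-(10 * k)) := by rw [← zpow_mul]; congr 1; ring

/-- The key identity: if `x ^ (6k+1) = 1` and `x ^ 3 = y ^ 5` then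
`x ^ 3 (x y) ^ (-2) = x y ^ (-2)`. -/
theorem key_identity {G : Type*} [Group G] (x y : G) (k : ℤ) (hx : x ^ (6 * k + 1) = 1)
    (hxy : x ^ 3 * y ^ (-5 : ℤ) = 1) : x ^ 3 * (x * y) ^ (-2 : ℤ) = x * y ^ (-2 : ℤ) := by
  have hc : Commute x y := by
    rw [eq_zpow_of x y k hx hxy]
    exact (Commute.refl y).zpow_left _
  rw [hc.mul_zpow, ← mul_assoc]
  congr 1
  have : x ^ 3 = x ^ (3 : ℤ) := by norm_cast
  rw [this, ← zpow_add]
  norm_num

/-- If the order of `S` in `G = ⟨a_i ∣ R_j⟩` is coprime to `6` then `S ^ (6k+1)` is a consequence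
of the relators `R_j` for some integer `k`. -/
theorem exists_zpow_mem {g h : ℕ} (R : Fin h → FreeGroup (Fin g)) (S : FreeGroup (Fin g))
    (hcop : Nat.Coprime (orderOf (PresentedGroup.mk (Set.range R) S)) 6) :
    ∃ k : ℤ, S ^ (6 * k + 1) ∈ Subgroup.normalClosure (Set.range R) := by
  set n := orderOf (PresentedGroup.mk (Set.range R) S) with hn
  have hb : (1 : ℤ) = n * Nat.gcdA n 6 + (6 : ℕ) * Nat.gcdB n 6 := by
    rw [← Nat.gcd_eq_gcd_ab, hcop.gcd_eq_one]; norm_num
  refine ⟨-(Nat.gcdB n 6), ?_⟩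
  have e : 6 * (-(Nat.gcdB n 6)) + 1 = (n : ℤ) * Nat.gcdA n 6 := by
    push_cast at hb; linarith
  have hpow : (PresentedGroup.mk (Set.range R) S) ^ n = 1 := pow_orderOf_eq_one _
  have h1 : PresentedGroup.mk (Set.range R) (S ^ ((n : ℤ) * Nat.gcdA n 6)) = 1 := by
    rw [map_zpow, zpow_mul, zpow_natCast, hpow, one_zpow]
  rw [e]
  exact (QuotientGroup.eq_one_iff _).1 h1

/-! ### The chain of moves -/

section Chain

variable {g h : ℕ} (R' : Fin h → FreeGroup (Fin g))

theorem upd0 (x y z x' : FreeGroup (Fin g)) :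
    Function.update (Fin.append R' ![x, y, z]) (Fin.natAdd h 0) x' = Fin.append R' ![x', y, z] := by
  funext i
  refine Fin.addCases (fun i => ?_) (fun i => ?_) i
  · rw [Function.update_of_ne]
    · simp
    · intro hi; simp [Fin.ext_iff] at hi; omega
  · fin_cases i
    · simp
    · rw [Function.update_of_ne]
      · simp
      · intro hi; simp [Fin.ext_iff] at hi
    · rw [Function.update_of_ne]
      · simp
      · intro hi; simp [Fin.ext_iff] at hi

theorem upd1 (x y z y' : FreeGroup (Fin g)) :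
    Function.update (Fin.append R' ![x, y, z]) (Fin.natAdd h 1) y' = Fin.append R' ![x, y', z] := by
  funext i
  refine Fin.addCases (fun i => ?_) (fun i => ?_) i
  · rw [Function.update_of_ne]
    · simp
    · intro hi; simp [Fin.ext_iff] at hi; omega
  · fin_cases i
    · rw [Function.update_of_ne]
      · simp
      · intro hi; simp [Fin.ext_iff] at hi
    · simp
    · rw [Function.update_of_ne]
      · simp
      · intro hi; simp [Fin.ext_iff] at hi

theorem upd2 (x y z z' : FreeGroup (Fin g)) :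
    Function.update (Fin.append R' ![x, y, z]) (Fin.natAdd h 2) z' = Fin.append R' ![x, y, z'] := by
  funext i
  refine Fin.addCases (fun i => ?_) (fun i => ?_) i
  · rw [Function.update_of_ne]
    · simp
    · intro hi; simp [Fin.ext_iff] at hi; omega
  · fin_cases i
    · rw [Function.update_of_ne]
      · simp
      · intro hi; simp [Fin.ext_iff] at hi
    · rw [Function.update_of_ne]
      · simp
      · intro hi; simp [Fin.ext_iff] at hi
    · simp

theorem repl0 (x y z x' : FreeGroup (Fin g))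
    (H : ∀ (N : Subgroup (FreeGroup (Fin g))) [N.Normal], (∀ i, R' i ∈ N) → y ∈ N → z ∈ N →
      (QuotientGroup.mk x : FreeGroup (Fin g) ⧸ N) = QuotientGroup.mk x') :
    QStarStarEquiv ⟨g, h + 3, Fin.append R' ![x, y, z]⟩ ⟨g, h + 3, Fin.append R' ![x', y, z]⟩ := by
  have := step_replace (Fin.append R' ![x, y, z]) (Fin.natAdd h 0) x' ?_
  · rwa [upd0] at this
  · have e : Fin.append R' ![x, y, z] (Fin.natAdd h 0) = x := by simp
    rw [e]
    refine H _ (fun i => ?_) ?_ ?_
    · have := rel_mem_others (Fin.append R' ![x, y, z]) (Fin.natAdd h 0) (Fin.castAdd 3 i)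
        (by intro hi; simp [Fin.ext_iff] at hi; omega)
      simpa using this
    · have := rel_mem_others (Fin.append R' ![x, y, z]) (Fin.natAdd h 0) (Fin.natAdd h 1)
        (by intro hi; simp [Fin.ext_iff] at hi)
      simpa using this
    · have := rel_mem_others (Fin.append R' ![x, y, z]) (Fin.natAdd h 0) (Fin.natAdd h 2)
        (by intro hi; simp [Fin.ext_iff] at hi)
      simpa using this

theorem repl1 (x y z y' : FreeGroup (Fin g))
    (H : ∀ (N : Subgroup (FreeGroup (Fin g))) [N.Normal], (∀ i, R' i ∈ N) → x ∈ N → z ∈ N →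
      (QuotientGroup.mk y : FreeGroup (Fin g) ⧸ N) = QuotientGroup.mk y') :
    QStarStarEquiv ⟨g, h + 3, Fin.append R' ![x, y, z]⟩ ⟨g, h + 3, Fin.append R' ![x, y', z]⟩ := by
  have := step_replace (Fin.append R' ![x, y, z]) (Fin.natAdd h 1) y' ?_
  · rwa [upd1] at this
  · have e : Fin.append R' ![x, y, z] (Fin.natAdd h 1) = y := by simp
    rw [e]
    refine H _ (fun i => ?_) ?_ ?_
    · have := rel_mem_others (Fin.append R' ![x, y, z]) (Fin.natAdd h 1) (Fin.castAdd 3 i)
        (by intro hi; simp [Fin.ext_iff] at hi; omega)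
      simpa using this
    · have := rel_mem_others (Fin.append R' ![x, y, z]) (Fin.natAdd h 1) (Fin.natAdd h 0)
        (by intro hi; simp [Fin.ext_iff] at hi)
      simpa using this
    · have := rel_mem_others (Fin.append R' ![x, y, z]) (Fin.natAdd h 1) (Fin.natAdd h 2)
        (by intro hi; simp [Fin.ext_iff] at hi)
      simpa using this

theorem repl2 (x y z z' : FreeGroup (Fin g))
    (H : ∀ (N : Subgroup (FreeGroup (Fin g))) [N.Normal], (∀ i, R' i ∈ N) → x ∈ N → y ∈ N →
      (QuotientGroup.mk z : FreeGroup (Fin g) ⧸ N) = QuotientGroup.mk z') :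
    QStarStarEquiv ⟨g, h + 3, Fin.append R' ![x, y, z]⟩ ⟨g, h + 3, Fin.append R' ![x, y, z']⟩ := by
  have := step_replace (Fin.append R' ![x, y, z]) (Fin.natAdd h 2) z' ?_
  · rwa [upd2] at this
  · have e : Fin.append R' ![x, y, z] (Fin.natAdd h 2) = z := by simp
    rw [e]
    refine H _ (fun i => ?_) ?_ ?_
    · have := rel_mem_others (Fin.append R' ![x, y, z]) (Fin.natAdd h 2) (Fin.castAdd 3 i)
        (by intro hi; simp [Fin.ext_iff] at hi; omega)
      simpa using this
    · have := rel_mem_others (Fin.append R' ![x, y, z]) (Fin.natAdd h 2) (Fin.natAdd h 0)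
        (by intro hi; simp [Fin.ext_iff] at hi)
      simpa using this
    · have := rel_mem_others (Fin.append R' ![x, y, z]) (Fin.natAdd h 2) (Fin.natAdd h 1)
        (by intro hi; simp [Fin.ext_iff] at hi)
      simpa using this

end Chain

/-- If `S ^ (6k+1)` is a consequence of the `R_j` then the relators `S b_1⁻¹`, `b_1³ b_2⁻⁵`,
`b_1³ (b_1 b_2)⁻²` of `𝒫` can be replaced by `S`, `b_1`, `b_2`. -/
theorem chain {g h : ℕ} (R : Fin h → FreeGroup (Fin g)) (S : FreeGroup (Fin g)) (k : ℤ)
    (hk : S ^ (6 * k + 1) ∈ Subgroup.normalClosure (Set.range R)) :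
    QStarStarEquiv (presP R S)
      ⟨g + 2, h + 3, Fin.append (fun j => emb (R j)) ![emb S, b₁ g, b₂ g]⟩ := by
  set R' : Fin h → FreeGroup (Fin (g + 2)) := fun j => emb (R j) with hR'
  set s := emb S with hs
  set x := b₁ g
  set y := b₂ g
  have hS : ∀ (N : Subgroup (FreeGroup (Fin (g + 2)))) [N.Normal], (∀ i, R' i ∈ N) →
      s ^ (6 * k + 1) ∈ N := by
    intro N _ hN
    have hle : Subgroup.normalClosure (Set.range R) ≤ N.comap emb := by
      apply Subgroup.normalClosure_le_normal
      rintro _ ⟨i, rfl⟩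
      exact hN i
    have := hle hk
    rwa [Subgroup.mem_comap, map_zpow] at this
  -- step 1 : replace `b_1³ (b_1 b_2)⁻²` by `b_1 b_2⁻²`
  have s1 : QStarStarEquiv (presP R S)
      ⟨g + 2, h + 3, Fin.append R' ![s * x⁻¹, x ^ 3 * y ^ (-5 : ℤ), x * y ^ (-2 : ℤ)]⟩ := by
    refine repl2 R' _ _ _ _ ?_
    intro N _ hN h1 h2
    have e1 : (QuotientGroup.mk s : FreeGroup (Fin (g + 2)) ⧸ N) = QuotientGroup.mk x := by
      have : (QuotientGroup.mk (s * x⁻¹) : FreeGroup (Fin (g + 2)) ⧸ N) = 1 :=
        (QuotientGroup.eq_one_iff _).2 h1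
      rw [QuotientGroup.mk_mul, QuotientGroup.mk_inv] at this
      exact mul_inv_eq_one.1 this
    have e2 : (QuotientGroup.mk x : FreeGroup (Fin (g + 2)) ⧸ N) ^ (6 * k + 1) = 1 := by
      rw [← e1, ← QuotientGroup.mk_zpow]
      exact (QuotientGroup.eq_one_iff _).2 (hS N hN)
    have e3 : (QuotientGroup.mk x : FreeGroup (Fin (g + 2)) ⧸ N) ^ 3 *
        (QuotientGroup.mk y) ^ (-5 : ℤ) = 1 := by
      have : (QuotientGroup.mk (x ^ 3 * y ^ (-5 : ℤ)) : FreeGroup (Fin (g + 2)) ⧸ N) = 1 :=
        (QuotientGroup.eq_one_iff _).2 h2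
      simpa only [QuotientGroup.mk_mul, QuotientGroup.mk_zpow, QuotientGroup.mk_pow] using this
    have := key_identity _ _ k e2 e3
    simpa only [QuotientGroup.mk_mul, QuotientGroup.mk_zpow, QuotientGroup.mk_pow] using this
  -- step 2 : replace `b_1³ b_2⁻⁵` by `b_2`
  have s2 : QStarStarEquiv
      ⟨g + 2, h + 3, Fin.append R' ![s * x⁻¹, x ^ 3 * y ^ (-5 : ℤ), x * y ^ (-2 : ℤ)]⟩
      ⟨g + 2, h + 3, Fin.append R' ![s * x⁻¹, y, x * y ^ (-2 : ℤ)]⟩ := by
    refine repl1 R' _ _ _ _ ?_
    intro N _ hN h1 h2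
    have e1 : (QuotientGroup.mk x : FreeGroup (Fin (g + 2)) ⧸ N) = (QuotientGroup.mk y) ^ 2 := by
      have : (QuotientGroup.mk (x * y ^ (-2 : ℤ)) : FreeGroup (Fin (g + 2)) ⧸ N) = 1 :=
        (QuotientGroup.eq_one_iff _).2 h2
      rw [QuotientGroup.mk_mul, QuotientGroup.mk_zpow] at this
      have := eq_inv_of_mul_eq_one_left this
      rw [this, ← zpow_neg]
      norm_cast
    rw [QuotientGroup.mk_mul, QuotientGroup.mk_zpow, QuotientGroup.mk_pow, e1]
    group
  -- step 3 : replace `b_1 b_2⁻²` by `b_1`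
  have s3 : QStarStarEquiv
      ⟨g + 2, h + 3, Fin.append R' ![s * x⁻¹, y, x * y ^ (-2 : ℤ)]⟩
      ⟨g + 2, h + 3, Fin.append R' ![s * x⁻¹, y, x]⟩ := by
    refine repl2 R' _ _ _ _ ?_
    intro N _ hN h1 h2
    have e1 : (QuotientGroup.mk y : FreeGroup (Fin (g + 2)) ⧸ N) = 1 :=
      (QuotientGroup.eq_one_iff _).2 h2
    rw [QuotientGroup.mk_mul, QuotientGroup.mk_zpow, e1, one_zpow, mul_one]
  -- step 4 : replace `S b_1⁻¹` by `S`
  have s4 : QStarStarEquiv
      ⟨g + 2, h + 3, Fin.append R' ![s * x⁻¹, y, x]⟩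
      ⟨g + 2, h + 3, Fin.append R' ![s, y, x]⟩ := by
    refine repl0 R' _ _ _ _ ?_
    intro N _ hN h1 h2
    have e1 : (QuotientGroup.mk x : FreeGroup (Fin (g + 2)) ⧸ N) = 1 :=
      (QuotientGroup.eq_one_iff _).2 h2
    rw [QuotientGroup.mk_mul, QuotientGroup.mk_inv, e1, inv_one, mul_one]
  -- steps 5 to 8 : exchange the relators `b_2` and `b_1`
  have s5 : QStarStarEquiv
      ⟨g + 2, h + 3, Fin.append R' ![s, y, x]⟩
      ⟨g + 2, h + 3, Fin.append R' ![s, y * x, x]⟩ := by
    refine repl1 R' _ _ _ _ ?_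
    intro N _ hN h1 h2
    have e1 : (QuotientGroup.mk x : FreeGroup (Fin (g + 2)) ⧸ N) = 1 :=
      (QuotientGroup.eq_one_iff _).2 h2
    rw [QuotientGroup.mk_mul, e1, mul_one]
  have s6 : QStarStarEquiv
      ⟨g + 2, h + 3, Fin.append R' ![s, y * x, x]⟩
      ⟨g + 2, h + 3, Fin.append R' ![s, y * x, y⁻¹]⟩ := by
    refine repl2 R' _ _ _ _ ?_
    intro N _ hN h1 h2
    have e1 : (QuotientGroup.mk (y * x) : FreeGroup (Fin (g + 2)) ⧸ N) = 1 :=
      (QuotientGroup.eq_one_iff _).2 h2
    rw [QuotientGroup.mk_mul] at e1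
    rw [QuotientGroup.mk_inv]
    exact eq_inv_of_mul_eq_one_right e1
  have s7 : QStarStarEquiv
      ⟨g + 2, h + 3, Fin.append R' ![s, y * x, y⁻¹]⟩
      ⟨g + 2, h + 3, Fin.append R' ![s, x, y⁻¹]⟩ := by
    refine repl1 R' _ _ _ _ ?_
    intro N _ hN h1 h2
    have e1 : (QuotientGroup.mk y⁻¹ : FreeGroup (Fin (g + 2)) ⧸ N) = 1 :=
      (QuotientGroup.eq_one_iff _).2 h2
    rw [QuotientGroup.mk_inv, inv_eq_one] at e1
    rw [QuotientGroup.mk_mul, e1, one_mul]
  have s8 : QStarStarEquiv
      ⟨g + 2, h + 3, Fin.append R' ![s, x, y⁻¹]⟩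
      ⟨g + 2, h + 3, Fin.append R' ![s, x, y]⟩ := by
    have := step_inv (Fin.append R' ![s, x, y⁻¹]) (Fin.natAdd h 2) y⁻¹
    rwa [upd2, upd2, inv_inv] at this
  exact ((((((s1.trans s2).trans s3).trans s4).trans s5).trans s6).trans s7).trans s8

/-- Two reductions remove the generators `b_2`, `b_1` and the relators `b_2`, `b_1`. -/
theorem removeTail {g h : ℕ} (R : Fin h → FreeGroup (Fin g)) (S : FreeGroup (Fin g)) :
    QStarStarEquiv ⟨g + 2, h + 3, Fin.append (fun j => emb (R j)) ![emb S, b₁ g, b₂ g]⟩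
      (presQ R S) := by
  have e2 : (⟨g + 2, h + 3, Fin.append (fun j => emb (R j)) ![emb S, b₁ g, b₂ g]⟩ : Pres)
      = prolong (prolong (presQ R S)) := by
    have : Fin.append (fun j => emb (R j)) ![emb S, b₁ g, b₂ g] =
        (prolong (prolong (presQ R S))).rel := by
      funext i
      refine Fin.addCases (fun i => ?_) (fun i => ?_) i
      · rw [Fin.append_left]
        have h1 : (Fin.castAdd 3 i) = Fin.castSucc (Fin.castSucc (Fin.castAdd 1 i)) := rfl
        rw [h1]
        simp only [prolong, presQ, Fin.snoc_castSucc, Fin.append_left]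
        rw [FreeGroup.map.comp]
        rfl
      · rw [Fin.append_right]
        fin_cases i
        · have h1 : (Fin.natAdd h (0 : Fin 3)) =
              Fin.castSucc (Fin.castSucc (Fin.natAdd h (0 : Fin 1))) := rfl
          change emb S = (prolong (prolong (presQ R S))).rel (Fin.natAdd h (0 : Fin 3))
          rw [h1]
          simp only [prolong, presQ, Fin.snoc_castSucc, Fin.append_right]
          rw [FreeGroup.map.comp]
          rfl
        · have h1 : (Fin.natAdd h (1 : Fin 3)) = Fin.castSucc (Fin.last (h + 1)) := rfl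
          change b₁ g = (prolong (prolong (presQ R S))).rel (Fin.natAdd h (1 : Fin 3))
          rw [h1]
          simp only [prolong, presQ, Fin.snoc_castSucc, Fin.snoc_last, FreeGroup.map.of]
          rfl
        · have h1 : (Fin.natAdd h (2 : Fin 3)) = Fin.last (h + 2) := rfl
          change b₂ g = (prolong (prolong (presQ R S))).rel (Fin.natAdd h (2 : Fin 3))
          rw [h1]
          simp only [prolong, presQ, Fin.snoc_last]
          rfl
    exact congrArg (fun r => (⟨g + 2, h + 3, r⟩ : Pres)) this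
  rw [e2]
  exact (Relation.ReflTransGen.single (Move.reduction _)).trans
    (Relation.ReflTransGen.single (Move.reduction _))

/-! ### Sanity check: `QStarStarEquiv` is an equivalence relation -/

theorem substGen_of_self {g : ℕ} (i : Fin g) (x : FreeGroup (Fin g)) :
    substGen i x (FreeGroup.of i) = x := by
  simp [substGen]

theorem substGen_of_ne {g : ℕ} (i k : Fin g) (x : FreeGroup (Fin g)) (hk : k ≠ i) :
    substGen i x (FreeGroup.of k) = FreeGroup.of k := by
  simp [substGen, Function.update_of_ne hk]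

/-- Every elementary move can be undone by elementary moves. -/
theorem Move.symm {P P' : Pres} (hm : Move P P') : QStarStarEquiv P' P := by
  cases hm with
  | conj g h R j w =>
    have := step_conj R j (w * R j * w⁻¹) w⁻¹
    have e : w⁻¹ * (w * R j * w⁻¹) * w⁻¹⁻¹ = R j := by group
    rwa [e, Function.update_eq_self] at this
  | inv g h R j =>
    have := step_inv R j (R j)⁻¹
    rwa [inv_inv, Function.update_eq_self] at this
  | mulRight g h R j k hkj =>
    have := step_mul_conj_inv R j k hkj (R j * R k) 1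
    have e : R j * R k * (1 * R k * 1⁻¹)⁻¹ = R j := by group
    rwa [e, Function.update_eq_self] at this
  | mulLeft g h R j k hkj =>
    have := step_mul_conj_inv R j k hkj (R k * R j) (R j)⁻¹
    have e : R k * R j * ((R j)⁻¹ * R k * (R j)⁻¹⁻¹)⁻¹ = R j := by group
    rwa [e, Function.update_eq_self] at this
  | nielsenInv g h R i =>
    have hm := Move.nielsenInv g h (fun j => substGen i (FreeGroup.of i)⁻¹ (R j)) i
    have e : (substGen i (FreeGroup.of i)⁻¹).comp (substGen i (FreeGroup.of i)⁻¹) =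
        MonoidHom.id _ := by
      ext k
      by_cases hk : k = i
      · subst hk; simp [substGen_of_self]
      · simp [substGen_of_ne _ _ _ hk]
    have e' : (fun j => substGen i (FreeGroup.of i)⁻¹ (substGen i (FreeGroup.of i)⁻¹ (R j))) = R :=
      funext fun j => DFunLike.congr_fun e (R j)
    rw [e'] at hm
    exact Relation.ReflTransGen.single hm
  | nielsenRight g h R i k hki =>
    have hik : i ≠ k := fun hh => hki hh.symm
    set φ := substGen i (FreeGroup.of i * FreeGroup.of k) with hφ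
    set ν := substGen k (FreeGroup.of k)⁻¹ with hν
    have m1 : Move ⟨g, h, fun j => φ (R j)⟩ ⟨g, h, fun j => ν (φ (R j))⟩ :=
      Move.nielsenInv g h (fun j => φ (R j)) k
    have m2 : Move ⟨g, h, fun j => ν (φ (R j))⟩ ⟨g, h, fun j => φ (ν (φ (R j)))⟩ :=
      Move.nielsenRight g h (fun j => ν (φ (R j))) i k hki
    have m3 : Move ⟨g, h, fun j => φ (ν (φ (R j)))⟩ ⟨g, h, fun j => ν (φ (ν (φ (R j))))⟩ :=
      Move.nielsenInv g h (fun j => φ (ν (φ (R j)))) k
    have e : ν.comp (φ.comp (ν.comp φ)) = MonoidHom.id _ := by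
      ext l
      by_cases hli : l = i
      · subst hli
        simp [hφ, hν, substGen_of_self, substGen_of_ne _ _ _ hik, substGen_of_ne _ _ _ hki]
      · by_cases hlk : l = k
        · subst hlk
          simp [hφ, hν, substGen_of_self, substGen_of_ne _ _ _ hki]
        · simp [hφ, hν, substGen_of_ne _ _ _ hli, substGen_of_ne _ _ _ hlk]
    have e' : (fun j => ν (φ (ν (φ (R j))))) = R := funext fun j => DFunLike.congr_fun e (R j)
    rw [e'] at m3
    exact ((Relation.ReflTransGen.single m1).trans (Relation.ReflTransGen.single m2)).trans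
      (Relation.ReflTransGen.single m3)
  | nielsenLeft g h R i k hki =>
    have hik : i ≠ k := fun hh => hki hh.symm
    set φ := substGen i (FreeGroup.of k * FreeGroup.of i) with hφ
    set ν := substGen k (FreeGroup.of k)⁻¹ with hν
    have m1 : Move ⟨g, h, fun j => φ (R j)⟩ ⟨g, h, fun j => ν (φ (R j))⟩ :=
      Move.nielsenInv g h (fun j => φ (R j)) k
    have m2 : Move ⟨g, h, fun j => ν (φ (R j))⟩ ⟨g, h, fun j => φ (ν (φ (R j)))⟩ :=
      Move.nielsenLeft g h (fun j => ν (φ (R j))) i k hki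
    have m3 : Move ⟨g, h, fun j => φ (ν (φ (R j)))⟩ ⟨g, h, fun j => ν (φ (ν (φ (R j))))⟩ :=
      Move.nielsenInv g h (fun j => φ (ν (φ (R j)))) k
    have e : ν.comp (φ.comp (ν.comp φ)) = MonoidHom.id _ := by
      ext l
      by_cases hli : l = i
      · subst hli
        simp [hφ, hν, substGen_of_self, substGen_of_ne _ _ _ hik, substGen_of_ne _ _ _ hki]
      · by_cases hlk : l = k
        · subst hlk
          simp [hφ, hν, substGen_of_self, substGen_of_ne _ _ _ hki]
        · simp [hφ, hν, substGen_of_ne _ _ _ hli, substGen_of_ne _ _ _ hlk]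
    have e' : (fun j => ν (φ (ν (φ (R j))))) = R := funext fun j => DFunLike.congr_fun e (R j)
    rw [e'] at m3
    exact ((Relation.ReflTransGen.single m1).trans (Relation.ReflTransGen.single m2)).trans
      (Relation.ReflTransGen.single m3)
  | prolongation P => exact Relation.ReflTransGen.single (Move.reduction P)
  | reduction => exact Relation.ReflTransGen.single (Move.prolongation _)

/-- `QStarStarEquiv` is symmetric. -/
theorem QStarStarEquiv.symm {P P' : Pres} (hP : QStarStarEquiv P P') : QStarStarEquiv P' P := by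
  induction hP with
  | refl => exact Relation.ReflTransGen.refl
  | tail _ hm ih => exact hm.symm.trans ih

/-- **Main theorem.** For every finite presentation `⟨a_1,…,a_g ∣ R_1,…,R_h⟩` of a group `G` and
every word `S` whose image in `G` has finite order coprime to `6`, a `Q**`-transformation
carries `𝒫` to `𝒬`. -/
theorem result {g h : ℕ} (R : Fin h → FreeGroup (Fin g)) (S : FreeGroup (Fin g))
    (_hfin : IsOfFinOrder (PresentedGroup.mk (Set.range R) S))
    (hcop : Nat.Coprime (orderOf (PresentedGroup.mk (Set.range R) S)) 6) :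
    QStarStarEquiv (presP R S) (presQ R S) := by
  obtain ⟨k, hk⟩ := exists_zpow_mem R S hcop
  exact (chain R S k hk).trans (removeTail R S)

end Pool.Agent.Results.MP_7840f5_gt.QStarStar
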